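import Pool.Agent.Q266.GPF.Norm

/-!
# MP_7880bd_lc: binary words of complexity three for generalized automata

Every binary word has the GPFA complexity at most `3`, and some binary word has the complexity `3`: a
word which contains all words of length at most `32768` is not the unique maximiser, among the words of its
length, of any generalized automaton with two states.
-/

set_option autoImplicit false

namespace Pool.Agent.Results.MP_7880bd_lc.NotAllTwo

open Matrix
open Pool.Agent.Q266.GPF (M2 W val Alive Rich not_rich exists_universal)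

/-- A generalized probabilistic finite automaton with `k` states over the alphabet `{0, 1}` (`false` is the
letter `0`, `true` is the letter `1`): a real row vector, two real matrices, a real column vector. -/
structure GPFA (k : ℕ) where
  /-- the row vector -/
  pi : Fin k → ℝ
  /-- the matrices `P_0`, `P_1` -/
  P : Bool → Matrix (Fin k) (Fin k) ℝ
  /-- the column vector -/
  eta : Fin k → ℝ

/-- `ρ_M(w) = π P_{w_1} ⋯ P_{w_n} η` -/
def GPFA.rho {k : ℕ} (M : GPFA k) (w : List Bool) : ℝ := M.pi ⬝ᵥ ((w.map M.P).prod *ᵥ M.eta)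

/-- `gap_M(x)`, the minimum of `ρ_M(x) - ρ_M(z)` over the words `z ≠ x` of the length of `x` (`⊤` for the
empty word) -/
noncomputable def GPFA.gap {k : ℕ} (M : GPFA k) (x : List Bool) : EReal :=
  ⨅ z ∈ {z : List Bool | z.length = x.length ∧ z ≠ x}, ((M.rho x - M.rho z : ℝ) : EReal)

/-- the GPFA complexity: the least `k ≥ 1` such that some `k`-state GPFA has a positive gap at `x` -/
noncomputable def complexity (x : List Bool) : ℕ := sInf {k | 1 ≤ k ∧ ∃ M : GPFA k, 0 < M.gap x}

theorem lt_of_gap {k : ℕ} {M : GPFA k} {x : List Bool} (h : 0 < M.gap x) {z : List Bool}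
    (hz : z.length = x.length) (hne : z ≠ x) : M.rho z < M.rho x := by
  have h1 : M.gap x ≤ ((M.rho x - M.rho z : ℝ) : EReal) := iInf₂_le z ⟨hz, hne⟩
  have h2 := h.trans_le h1
  have h3 : (0 : ℝ) < M.rho x - M.rho z := by exact_mod_cast h2
  linarith

/-! ### three states suffice -/

/-- the matrices of the three-state automaton -/
def Q (c : Bool) : Matrix (Fin 3) (Fin 3) ℝ :=
  if c then !![1, 1, 1; 0, 2, 4; 0, 0, 4] else !![1, 0, 0; 0, 2, 0; 0, 0, 4]

/-- the number with the binary digits `w`, after the number `N` -/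
def num (N : ℤ) : List Bool → ℤ
  | [] => N
  | c :: w => num (2 * N + (if c then 1 else 0)) w

theorem num_inj : ∀ (z x : List Bool) (N M : ℤ), z.length = x.length → num N z = num M x → N = M ∧ z = x
  | [], [], N, M, _, h => ⟨h, rfl⟩
  | [], _ :: _, _, _, h, _ => by simp at h
  | _ :: _, [], _, _, h, _ => by simp at h
  | c :: z, d :: x, N, M, hl, h => by
    obtain ⟨h1, h2⟩ := num_inj z x _ _ (by simpa using hl) h
    cases c <;> cases d <;> simp at h1 <;> first | omega | exact ⟨by omega, by rw [h2]⟩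

theorem Q_step (t : Fin 3 → ℝ) (w : List Bool) : ∀ N : ℤ,
    ![(1 : ℝ), N, (N : ℝ) ^ 2] ⬝ᵥ ((w.map Q).prod *ᵥ t) =
      ![(1 : ℝ), (num N w : ℤ), ((num N w : ℤ) : ℝ) ^ 2] ⬝ᵥ t := by
  induction w with
  | nil => intro N; simp [num]
  | cons c w ih =>
    intro N
    rw [List.map_cons, List.prod_cons, ← mulVec_mulVec, dotProduct_mulVec, num, ← ih]
    congr 1
    cases c
    · ext i
      fin_cases i <;> simp [Q, vecMul, dotProduct, Fin.sum_univ_three] <;> ring
    · ext i
      fin_cases i <;> simp [Q, vecMul, dotProduct, Fin.sum_univ_three] <;> ring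

theorem three_states (x : List Bool) : ∃ M : GPFA 3, 0 < M.gap x := by
  set n : ℝ := ((num 0 x : ℤ) : ℝ) with hn
  refine ⟨⟨![1, 0, 0], Q, ![-n ^ 2, 2 * n, -1]⟩, ?_⟩
  have hrho : ∀ w : List Bool, (⟨![1, 0, 0], Q, ![-n ^ 2, 2 * n, -1]⟩ : GPFA 3).rho w =
      -(((num 0 w : ℤ) : ℝ) - n) ^ 2 := by
    intro w
    have h := Q_step ![-n ^ 2, 2 * n, -1] w 0
    unfold GPFA.rho
    simp only [Int.cast_zero, ne_eq, OfNat.ofNat_ne_zero, not_false_eq_true, zero_pow] at h
    rw [h]
    simp [dotProduct, Fin.sum_univ_three]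
    ring
  have h1 : (1 : EReal) ≤ GPFA.gap (⟨![1, 0, 0], Q, ![-n ^ 2, 2 * n, -1]⟩ : GPFA 3) x := by
    unfold GPFA.gap
    refine le_iInf₂ fun z hz => ?_
    have hne : num 0 z - num 0 x ≠ 0 := fun h =>
      hz.2 (num_inj z x 0 0 hz.1 (by linarith)).2
    have h2 : (1 : ℤ) ≤ (num 0 z - num 0 x) ^ 2 := by
      have := pow_pos (abs_pos.2 hne) 2
      rw [sq_abs] at this
      exact this
    have h3 : (1 : ℝ) ≤ (((num 0 z : ℤ) : ℝ) - (num 0 x : ℤ)) ^ 2 := by exact_mod_cast h2
    rw [hrho, hrho]
    have h4 : (1 : ℝ) ≤ -(((num 0 x : ℤ) : ℝ) - n) ^ 2 - -(((num 0 z : ℤ) : ℝ) - n) ^ 2 := by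
      rw [hn]; linarith [h3]
    exact_mod_cast h4
  exact lt_of_lt_of_le zero_lt_one h1

/-! ### two states do not suffice -/

theorem rho_eq (M : GPFA 2) (s w t : List Bool) :
    M.rho (s ++ w ++ t) = val (M.pi ᵥ* (s.map M.P).prod) ((t.map M.P).prod *ᵥ M.eta)
      (W (M.P false) (M.P true) w) := by
  have e : (w.map M.P).prod = W (M.P false) (M.P true) w := by
    unfold W
    congr 1
    apply List.map_congr_left
    intro c _
    cases c <;> rfl
  unfold GPFA.rho val
  rw [List.map_append, List.map_append, List.prod_append, List.prod_append, e, ← mulVec_mulVec,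
    ← mulVec_mulVec, dotProduct_mulVec]

theorem not_two {x : List Bool} (hx : ∀ w : List Bool, w.length ≤ 32768 → w <:+: x) (M : GPFA 2) :
    ∃ z : List Bool, z.length = x.length ∧ z ≠ x ∧ M.rho x ≤ M.rho z := by
  by_contra hcon
  push Not at hcon
  apply not_rich (M.P false) (M.P true)
  intro w hw
  obtain ⟨s, t, rfl⟩ := hx w hw
  refine ⟨M.pi ᵥ* (s.map M.P).prod, (t.map M.P).prod *ᵥ M.eta, fun z hz hne => ?_⟩
  rw [← rho_eq, ← rho_eq]
  apply hcon
  · simp [hz.length_eq]
  · intro h
    rw [List.append_left_inj, List.append_right_inj] at h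
    exact hne h

theorem not_one {x : List Bool} (hx : ∀ w : List Bool, w.length ≤ 32768 → w <:+: x) (M : GPFA 1) :
    ¬ 0 < M.gap x := by
  intro h
  obtain ⟨s, t, rfl⟩ := hx [false, true] (by simp)
  have h1 := lt_of_gap h (z := s ++ [true, false] ++ t) (by simp) (by simp)
  have hc : M.P true * M.P false = M.P false * M.P true := by
    ext i j
    simp [Matrix.mul_apply, Subsingleton.elim i 0, Subsingleton.elim j 0, mul_comm]
  unfold GPFA.rho at h1
  simp only [List.map_append, List.map_cons, List.map_nil, List.prod_append, List.prod_cons, List.prod_nil,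
    mul_one, hc] at h1
  exact lt_irrefl _ h1

/-- **Main theorem.** The complexity of a binary word is at most `3`; and there is a binary word `x` of
complexity `3`, so that for every automaton with two states some other word of the same length has at
least the value of `x`. -/
theorem result :
    (∀ x : List Bool, complexity x ≤ 3) ∧
    ∃ x : List Bool, complexity x = 3 ∧
      ∀ M : GPFA 2, ∃ z : List Bool, z.length = x.length ∧ z ≠ x ∧ M.rho x ≤ M.rho z := by
  have h3 : ∀ x : List Bool, 3 ∈ {k | 1 ≤ k ∧ ∃ M : GPFA k, 0 < M.gap x} := fun x =>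
    ⟨by norm_num, three_states x⟩
  refine ⟨fun x => Nat.sInf_le (h3 x), ?_⟩
  obtain ⟨x, hx⟩ := exists_universal 32768
  refine ⟨x, le_antisymm (Nat.sInf_le (h3 x)) (le_csInf ⟨3, h3 x⟩ ?_), not_two hx⟩
  rintro k ⟨hk, M, hM⟩
  by_contra hcon
  have hk : k = 1 ∨ k = 2 := by omega
  rcases hk with rfl | rfl
  · exact not_one hx M hM
  · obtain ⟨z, hz, hne, hle⟩ := not_two hx M
    exact absurd (lt_of_gap hM hz hne) (not_lt.2 hle)

end Pool.Agent.Results.MP_7880bd_lc.NotAllTwo
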